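import Pool.Agent.T9h88.IO.Basic

/-!
# Truth of the clauses for strings
-/

set_option autoImplicit false

namespace Pool.Agent.T9h89.IO

open Pool.Agent.TH672 (Fm Str upd num digits varStr LogK)
open Pool.Agent.TH636.BC
open Pool.Agent.T9h6.BC (sz cl)
open Pool.Agent.T9h88.IO
open Pool.Agent.T9h88.IO.Tree
open Pool.Agent.TH197.J1545 (digits_num)

theorem app_app (w : ℕ) (σ τ : List Bool) : app (app w σ) τ = app w (σ ++ τ) := by
  unfold app
  rw [digits_num, List.append_assoc]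

theorem num_digits (n : ℕ) : num (digits n) = n := by
  induction n using Nat.strong_induction_on with
  | _ n ih =>
    rw [digits]
    split_ifs with h
    · subst h; rfl
    · have h2 := ih ((n - 1) / 2) (by omega)
      unfold num at h2 ⊢
      rw [List.foldl_append, h2]
      simp only [List.foldl_cons, List.foldl_nil]
      by_cases h3 : n % 2 = 0
      · simp only [h3, decide_true, if_true]; omega
      · simp only [h3, decide_false, Bool.false_eq_true, if_false]; omega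

theorem app_nil (w : ℕ) : app w [] = w := by
  unfold app; rw [List.append_nil, num_digits]

theorem app_false (w : ℕ) : app w [false] = 2 * w + 1 := by
  have h := num_digits w
  unfold app
  unfold num at h ⊢
  rw [List.foldl_append, h]
  simp

theorem app_true (w : ℕ) : app w [true] = 2 * w + 2 := by
  have h := num_digits w
  unfold app
  unfold num at h ⊢
  rw [List.foldl_append, h]
  simp

theorem varStr_zero : varStr 0 = [false] := rfl

theorem varStr_succ (x : ℕ) : varStr (x + 1) = true :: varStr x := by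
  simp [varStr, List.replicate_succ]

/-! ### truth of the atoms -/

section
variable (P : Fml) (σ : List Bool) (κ : ℕ) (v : ℕ → ℕ) (a b c d : ℕ)

theorem tr_nl : (nl a).Tr P σ κ v ↔ dec (v a) = nil := Iff.rfl
theorem tr_nd : (nd a b c).Tr P σ κ v ↔ dec (v c) = node (dec (v a)) (dec (v b)) := Iff.rfl
theorem tr_db0 : (o2 iDb0 a b).Tr P σ κ v ↔ v b = 2 * v a + 1 := Iff.rfl
theorem tr_db1 : (o2 iDb1 a b).Tr P σ κ v ↔ v b = 2 * v a + 2 := Iff.rfl
theorem tr_var : (o3 iVar a b c).Tr P σ κ v ↔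
    ∃ x, dec (v a) = comb x ∧ v c = app (v b) (varStr x) := Iff.rfl
theorem tr_str : (o3 iStr a b c).Tr P σ κ v ↔
    ∃ φ, dec (v a) = enc φ ∧ v c = app (v b) (str φ) := Iff.rfl
theorem tr_strs : (o3 iStrs a b c).Tr P σ κ v ↔
    ∃ Γ, dec (v a) = encL Γ ∧ v c = app (v b) (strs Γ) := Iff.rfl
theorem tr_app (τ : List Bool) : (o2 (iApp τ) a b).Tr P σ κ v ↔ v b = app (v a) τ :=
  I_app P σ κ τ _ _ _ _
end

theorem vStr : VStr := by
  intro P σ κ
  simp only [clStr, List.forall_mem_cons, List.not_mem_nil, false_imp_iff, implies_true, and_true,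
    Cl.Tr, tr_nl, tr_nd, tr_db0, tr_db1, tr_var, tr_str, tr_strs, tr_app]
  refine ⟨?_, ?_, ?_, ?_, ?_, ?_, ?_, ?_, ?_, ?_, ?_, ?_, ?_⟩
  · rintro v ⟨h1, h2⟩
    exact ⟨0, h1, by rw [h2, varStr_zero, app_false]⟩
  · rintro v ⟨h1, h2, h3, x, h4, h5⟩
    refine ⟨x + 1, by rw [h2, h1, h4]; rfl, ?_⟩
    rw [h5, h3, ← app_true, app_app, varStr_succ]; rfl
  · rintro v ⟨h1, h2⟩
    exact ⟨.bot, h1, h2⟩
  · rintro v ⟨h1, h2, h3, h4, h5, h6, ⟨x, hx, h7⟩, ⟨y, hy, h8⟩⟩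
    refine ⟨.eq x y, by rw [h5, h4, h3, h2, hx, hy, h1]; rfl, ?_⟩
    simp only [h8, h7, h6, app_app, str, List.append_assoc]
  · rintro v ⟨h1, h2, h3, h4, h5, h6, h7, ⟨x, hx, h8⟩⟩
    refine ⟨.zero x, by rw [h6, h5, h4, h3, h2, hx, h1]; rfl, ?_⟩
    simp only [h8, h7, app_app, str]
  · rintro v ⟨h1, h2, h3, h4, h5, h6, h7, h8, ⟨x, hx, h9⟩, ⟨y, hy, h10⟩⟩
    refine ⟨.succ x y, by rw [h7, h6, h5, h4, h3, h2, hx, hy, h1]; rfl, ?_⟩
    simp only [h10, h9, h8, app_app, str, List.append_assoc]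
  · rintro v ⟨h1, h2, h3, h4, h5, h6, h7, h8, h9, h10, ⟨x, hx, h11⟩, ⟨y, hy, h12⟩, ⟨z, hz, h13⟩⟩
    refine ⟨.add x y z, by rw [h9, h8, h7, h6, h5, h4, h3, h2, hx, hy, hz, h1]; rfl, ?_⟩
    simp only [h13, h12, h11, h10, app_app, str, List.append_assoc]
  · rintro v ⟨h1, h2, h3, h4, h5, h6, h7, h8, h9, h10, h11, ⟨x, hx, h12⟩, ⟨y, hy, h13⟩,
      ⟨z, hz, h14⟩⟩
    refine ⟨.mul x y z, by rw [h10, h9, h8, h7, h6, h5, h4, h3, h2, hx, hy, hz, h1]; rfl, ?_⟩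
    simp only [h14, h13, h12, h11, app_app, str, List.append_assoc]
  · rintro v ⟨h1, h2, h3, h4, h5, h6, h7, h8, h9, ⟨i, hi, h10⟩, ⟨x, hx, h11⟩, ⟨y, hy, h12⟩,
      ⟨z, hz, h13⟩, ⟨w, hw, h14⟩⟩
    refine ⟨.op i x y z w, by rw [h8, h7, h6, h5, h4, h3, h2, hi, hx, hy, hz, hw, h1]; rfl, ?_⟩
    simp only [h14, h13, h12, h11, h10, h9, app_app, str, List.append_assoc]
  · rintro v ⟨h1, h2, h3, h4, h5, ⟨φ, hφ, h6⟩, ⟨ψ, hψ, h7⟩⟩
    refine ⟨.imp φ ψ, by rw [h4, h3, h2, hφ, hψ, h1]; rfl, ?_⟩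
    simp only [h7, h6, h5, app_app, str, List.append_assoc]
  · rintro v ⟨h1, h2, h3, h4, h5, h6, ⟨x, hx, h7⟩, ⟨φ, hφ, h8⟩⟩
    refine ⟨.all x φ, by rw [h5, h4, h3, h2, hx, hφ, h1]; rfl, ?_⟩
    simp only [h8, h7, h6, app_app, str, List.append_assoc]
  · intro v h1
    exact ⟨[], h1, by rw [show strs [] = [] from rfl, app_nil]⟩
  · rintro v ⟨h1, ⟨φ, hφ, h2⟩, ⟨Γ, hΓ, h3⟩⟩
    refine ⟨φ :: Γ, by rw [h1, hφ, hΓ]; rfl, ?_⟩
    rw [h3, h2, app_app]; rfl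

end Pool.Agent.T9h89.IO
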